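import Mathlib
import Pool.Agent.H14.PaintDefs

set_option autoImplicit false
set_option maxRecDepth 100000

namespace Pool.Agent.Results.MP_8484b9_co.Repeat

open Pool.Agent.H14.PaintDefs Finset

def adj (u v : Fin 15) : Bool := (([[6], [6], [9], [9], [12], [12], [0, 1, 7, 14], [6, 8], [7, 9], [2, 3, 8, 10], [9, 11], [10, 12], [4, 5, 11, 13], [12, 14], [6, 13]] : List (List (Fin 15))).getD u []).contains v

def G : SimpleGraph (Fin 15) where
  Adj u v := adj u v = true
  symm := ⟨by decide +kernel⟩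
  loopless := ⟨by decide +kernel⟩

def srch (c : Fin 15 → ℕ) : List (Fin 15) → List (Fin 15 × Fin 15) → Bool
  | [], done => done.all fun p => p.1 == p.2
  | v :: vs, done => (List.finRange 15).all fun w =>
      !(c v == c w && done.all fun p => adj p.1 v == adj p.2 w && (p.1 == v) == (p.2 == w)) ||
        srch c vs ((v, w) :: done)

theorem srch_ok (c : Fin 15 → ℕ) (φ : G ≃g G) (hc : ∀ v, c (φ v) = c v) :
    ∀ (todo : List (Fin 15)) (done : List (Fin 15 × Fin 15)), (∀ p ∈ done, φ p.1 = p.2) →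
      srch c todo done = true → ∀ v ∈ todo ++ done.map Prod.fst, φ v = v
  | [], done, hd, h => by
    intro v hv
    simp only [List.nil_append, List.mem_map] at hv
    obtain ⟨p, hp, rfl⟩ := hv
    have := List.all_eq_true.1 h p hp
    rw [hd p hp]; exact (beq_iff_eq.1 this).symm
  | v :: vs, done, hd, h => by
    have h1 := List.all_eq_true.1 h (φ v) (List.mem_finRange _)
    have h2 : (c v == c (φ v) && done.all fun p => adj p.1 v == adj p.2 (φ v) &&
        (p.1 == v) == (p.2 == φ v)) = true := by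
      simp only [Bool.and_eq_true, beq_iff_eq, List.all_eq_true]
      refine ⟨(hc v).symm, fun p hp => ⟨?_, ?_⟩⟩
      · rw [← hd p hp, Bool.eq_iff_iff]
        exact (φ.map_rel_iff (a := p.1) (b := v)).symm
      · rw [← hd p hp, Bool.eq_iff_iff]
        simp
    rw [h2] at h1
    have := srch_ok c φ hc vs ((v, φ v) :: done) (by
      intro p hp
      rcases List.mem_cons.1 hp with rfl | hp
      · rfl
      · exact hd p hp) (by simpa using h1)
    intro u hu
    apply this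
    simp only [List.mem_append, List.mem_cons, List.map_cons] at hu ⊢
    tauto

def ord : List (Fin 15) := [6, 0, 1, 7, 8, 9, 2, 3, 10, 11, 12, 4, 5, 13, 14]

theorem ord_all : ∀ v : Fin 15, v ∈ ord ++ ([] : List (Fin 15 × Fin 15)).map Prod.fst := by decide

theorem dist_of {d : ℕ} (c : Fin 15 → Fin d) (h : srch (fun v => c v) ord [] = true) :
    Distinguishing G c := fun φ hφ v =>
  srch_ok (fun v => c v) φ (fun v => by rw [hφ v]) ord [] (by simp) h v (ord_all v)

def au (i : Fin 9) (v : Fin 15) : Fin 15 :=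
  (([[1, 0, 2, 3, 4, 5, 6, 7, 8, 9, 10, 11, 12, 13, 14], [0, 1, 3, 2, 4, 5, 6, 7, 8, 9, 10, 11, 12, 13, 14], [0, 1, 2, 3, 5, 4, 6, 7, 8, 9, 10, 11, 12, 13, 14], [0, 1, 4, 5, 2, 3, 6, 14, 13, 12, 11, 10, 9, 8, 7], [0, 1, 5, 4, 3, 2, 6, 14, 13, 12, 11, 10, 9, 8, 7], [4, 5, 2, 3, 0, 1, 12, 11, 10, 9, 8, 7, 6, 14, 13], [5, 4, 2, 3, 1, 0, 12, 11, 10, 9, 8, 7, 6, 14, 13], [2, 3, 0, 1, 4, 5, 9, 8, 7, 6, 14, 13, 12, 11, 10], [3, 2, 1, 0, 4, 5, 9, 8, 7, 6, 14, 13, 12, 11, 10]] : List (List (Fin 15))).getD i []).getD v 0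

theorem au_inv : ∀ i v, au i (au i v) = v := by decide +kernel
theorem au_adj : ∀ i u v, adj (au i u) (au i v) = adj u v := by decide +kernel
theorem au_ne : ∀ i, ∃ v, au i v ≠ v := by decide +kernel

def aut (i : Fin 9) : G ≃g G where
  toEquiv := ⟨au i, au i, au_inv i, au_inv i⟩
  map_rel_iff' := by intro u v; show adj (au i u) (au i v) = true ↔ adj u v = true; rw [au_adj]

theorem not_pres {d : ℕ} {c : Fin 15 → Fin d} (h : Distinguishing G c) (i : Fin 9) :
    ¬ ∀ v, c (au i v) = c v := fun h' => by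
  obtain ⟨v, hv⟩ := au_ne i
  exact hv (h (aut i) h' v)

theorem hit (S : Finset (Fin 15)) (h : ∀ i : Fin 9, ¬ ∀ v, au i v ≠ v → v ∉ S) :
    ∃ x ∈ S, ∃ y ∈ S, ∃ z ∈ S, (x = 0 ∨ x = 1) ∧ (y = 2 ∨ y = 3) ∧ (z = 4 ∨ z = 5) := by
  have h0 := h 0; have h1 := h 1; have h2 := h 2
  push Not at h0 h1 h2
  obtain ⟨x, a, hx⟩ := h0
  obtain ⟨y, b, hy⟩ := h1
  obtain ⟨z, e, hz⟩ := h2
  exact ⟨x, hx, y, hy, z, hz, (by decide : ∀ x, au 0 x ≠ x → x = 0 ∨ x = 1) x a,
    (by decide : ∀ x, au 1 x ≠ x → x = 2 ∨ x = 3) y b, (by decide : ∀ x, au 2 x ≠ x → x = 4 ∨ x = 5) z e⟩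

theorem three {x y z : Fin 15} (a : x = 0 ∨ x = 1) (b : y = 2 ∨ y = 3) (e : z = 4 ∨ z = 5) :
    ({x, y, z} : Finset (Fin 15)).card = 3 := by
  rcases a with rfl | rfl <;> rcases b with rfl | rfl <;> rcases e with rfl | rfl <;> rfl

theorem key : ∀ x y z : Fin 15, (x = 0 ∨ x = 1) → (y = 2 ∨ y = 3) → (z = 4 ∨ z = 5) →
    ∀ k a b e : Fin 3, a ≠ k → b ≠ k → e ≠ k → ∃ i : Fin 9, ∀ v,
      (fun v => if v = x then a else if v = y then b else if v = z then e else k) (au i v) =
      (fun v => if v = x then a else if v = y then b else if v = z then e else k) v := by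
  decide +kernel

theorem low3 (c : Fin 15 → Fin 3) (h : Distinguishing G c) (k : Fin 3) :
    4 ≤ (univ.filter fun v => c v ≠ k).card := by
  by_contra hlt
  obtain ⟨x, hx, y, hy, z, hz, a, b, e⟩ := hit (univ.filter fun v => c v ≠ k) (by
    intro i hi
    refine not_pres h i fun v => ?_
    by_cases hv : au i v = v
    · rw [hv]
    · have h1 := hi v hv
      have h2 := hi (au i v) (by rw [au_inv]; exact fun e => hv e.symm)
      simp only [mem_filter, mem_univ, true_and, not_not] at h1 h2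
      rw [h1, h2])
  have hS : ({x, y, z} : Finset (Fin 15)) = univ.filter fun v => c v ≠ k :=
    eq_of_subset_of_card_le (by
      intro v hv
      simp only [mem_insert, mem_singleton] at hv
      rcases hv with rfl | rfl | rfl <;> assumption) (by rw [three a b e]; omega)
  have hc : c = fun v => if v = x then c x else if v = y then c y else if v = z then c z else k := by
    funext v
    split_ifs with h1 h2 h3
    · rw [h1]
    · rw [h2]
    · rw [h3]
    · by_contra h4
      have : v ∈ ({x, y, z} : Finset (Fin 15)) := by rw [hS]; simpa using h4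
      simp [h1, h2, h3] at this
  obtain ⟨i, hi⟩ := key x y z a b e k (c x) (c y) (c z) (by simpa using hx) (by simpa using hy)
    (by simpa using hz)
  rw [← hc] at hi
  exact not_pres h i hi

theorem sInf_eq {s : Set ℕ} {n : ℕ} (h1 : n ∈ s) (h2 : ∀ m ∈ s, n ≤ m) : sInf s = n :=
  le_antisymm (Nat.sInf_le h1) (h2 _ (Nat.sInf_mem ⟨n, h1⟩))

def c2 (v : Fin 15) : Fin 2 := if v = 0 ∨ v = 2 ∨ v = 4 ∨ v = 7 then 1 else 0
def c3 (v : Fin 15) : Fin 3 := if v = 0 ∨ v = 2 ∨ v = 4 ∨ v = 7 then 1 else 0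
def c4 (v : Fin 15) : Fin 4 := if v = 0 then 1 else if v = 2 then 2 else if v = 4 then 3 else 0

theorem d2 : Distinguishing G c2 := dist_of _ (by decide +kernel)
theorem d3 : Distinguishing G c3 := dist_of _ (by decide +kernel)
theorem d4 : Distinguishing G c4 := dist_of _ (by decide +kernel)

theorem hD : distNum G = 2 := by
  refine sInf_eq ⟨c2, d2⟩ ?_
  rintro m ⟨c, hc⟩
  by_contra h
  exact not_pres hc 0 fun v => Fin.ext (by have := (c (au 0 v)).2; have := (c v).2; omega)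

theorem lowS (S : Finset (Fin 15)) (h : ∀ i : Fin 9, ¬ ∀ v, au i v ≠ v → v ∉ S) : 3 ≤ S.card := by
  obtain ⟨x, hx, y, hy, z, hz, a, b, e⟩ := hit S h
  rw [← three a b e]
  refine card_le_card fun v hv => ?_
  simp only [mem_insert, mem_singleton] at hv
  rcases hv with rfl | rfl | rfl <;> assumption

theorem hF : fixNum G = 3 := by
  refine sInf_eq ⟨{0, 2, 4}, rfl, fun φ h => d4 φ fun v => ?_⟩ ?_
  · have h0 := h 0 (by simp); have h2 := h 2 (by simp); have h4 := h 4 (by simp)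
    have e0 : φ v = 0 ↔ v = 0 := ⟨fun e => φ.injective (e.trans h0.symm), fun e => e ▸ h0⟩
    have e2 : φ v = 2 ↔ v = 2 := ⟨fun e => φ.injective (e.trans h2.symm), fun e => e ▸ h2⟩
    have e4 : φ v = 4 ↔ v = 4 := ⟨fun e => φ.injective (e.trans h4.symm), fun e => e ▸ h4⟩
    simp only [c4, e0, e2, e4]
  · rintro m ⟨S, rfl, hS⟩
    refine lowS S fun i hi => ?_
    obtain ⟨v, hv⟩ := au_ne i
    exact hv (hS (aut i) (fun u hu => by by_contra h'; exact hi u h' hu) v)

theorem r3 : paintCost G 3 = 4 := by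
  refine sInf_eq ⟨c3, d3, 1, by decide⟩ ?_
  rintro m ⟨c, hc, v, rfl⟩
  exact low3 c hc _

theorem r2 : paintCost G 2 = 4 := by
  refine sInf_eq ⟨c2, d2, 1, by decide⟩ ?_
  rintro m ⟨c, hc, v, rfl⟩
  have := low3 (fun u => (c u).castSucc) (fun φ h => hc φ fun u => Fin.castSucc_injective _ (h u))
    (c v).castSucc
  simpa using this

theorem r4 : paintCost G 4 = 3 := by
  refine sInf_eq ⟨c4, d4, 1, by decide⟩ ?_
  rintro m ⟨c, h, k, rfl⟩
  refine lowS _ fun i hi => not_pres h i fun v => ?_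
  by_cases hv : au i v = v
  · rw [hv]
  · have h1 := hi v hv
    have h2 := hi (au i v) (by rw [au_inv]; exact fun e => hv e.symm)
    simp only [mem_filter, mem_univ, true_and, not_not] at h1 h2
    rw [h1, h2]

theorem result : ∃ G : SimpleGraph (Fin 15), distNum G = 2 ∧ fixNum G = 3 ∧ frugal G = 4 ∧
    paintCost G 2 = 4 ∧ paintCost G 3 = 4 := by
  refine ⟨G, hD, hF, sInf_eq ⟨by rw [hD]; omega, by rw [r4, hF]⟩ ?_, r2, r3⟩
  rintro m ⟨h1, h2⟩
  rw [hD] at h1
  rw [hF] at h2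
  by_contra h
  obtain rfl | rfl : m = 2 ∨ m = 3 := by omega
  · rw [r2] at h2; omega
  · rw [r3] at h2; omega

end Pool.Agent.Results.MP_8484b9_co.Repeat
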